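import Mathlib
import Pool.Agent.H220.TS.Stm

/-!
# Large discs in the image of the Koenigs function
-/

set_option autoImplicit false

open Set Filter Topology Metric
open scoped ComplexConjugate

namespace Pool.Agent.H824.TS

open Pool.Agent.H220.TS

/-- the image of an injective holomorphic function on the disc is open -/
theorem isOpen_image {h : ℂ → ℂ} (hd : DifferentiableOn ℂ h D) (hi : InjOn h D) :
    IsOpen (h '' D) := by
  have hD : IsOpen D := isOpen_ball
  have hpc : IsPreconnected D := (convex_ball (0 : ℂ) 1).isPreconnected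
  rcases (hd.analyticOnNhd hD).is_constant_or_isOpen hpc with ⟨w, hw⟩ | ho
  · have h0 : (0 : ℂ) ∈ D := by
      unfold D
      simp
    have h1 : (1 / 2 : ℂ) ∈ D := by
      unfold D
      rw [mem_ball_zero_iff]
      norm_num
    have h2 := hi h0 h1 ((hw 0 h0).trans (hw _ h1).symm)
    norm_num at h2
  · exact ho D Subset.rfl hD

/-- the image is mapped to itself by the translations -/
theorem shift {φ : ℝ → ℂ → ℂ} {h : ℂ → ℂ} (hφ : IsSemigroup φ) (hK : IsKoenigs φ h) {w : ℂ}
    {t : ℝ} (ht : 0 ≤ t) (hw : w ∈ h '' D) : w + t * Complex.I ∈ h '' D := by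
  obtain ⟨z, hz, rfl⟩ := hw
  exact ⟨φ t z, hφ.maps t ht hz, hK.2.2 t ht z hz⟩

theorem s_cover : S_cover := by
  intro φ h hφ hK hΩ R hR
  have hopen := isOpen_image hK.1 hK.2.1
  -- the translated images
  have hUo : ∀ n : ℕ, IsOpen {w : ℂ | w + (n : ℝ) * Complex.I ∈ h '' D} := by
    intro n
    exact hopen.preimage (continuous_id.add continuous_const)
  have hmono : Monotone fun n : ℕ => {w : ℂ | w + (n : ℝ) * Complex.I ∈ h '' D} := by
    intro m n hmn w hw
    have h1 : (0 : ℝ) ≤ (n : ℝ) - (m : ℝ) := sub_nonneg.2 (Nat.cast_le.2 hmn)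
    have h2 := shift hφ hK h1 hw
    have h3 : w + (m : ℝ) * Complex.I + (((n : ℝ) - (m : ℝ) : ℝ) : ℂ) * Complex.I =
        w + (n : ℝ) * Complex.I := by
      push_cast
      ring
    rw [h3] at h2
    exact h2
  have hcov : closedBall (h 0) R ⊆ ⋃ n : ℕ, {w : ℂ | w + (n : ℝ) * Complex.I ∈ h '' D} := by
    intro w _
    have h1 : w ∈ Omega h := by
      rw [hΩ]
      exact mem_univ w
    obtain ⟨t, ht, htw⟩ := h1
    obtain ⟨n, hn⟩ := exists_nat_ge t
    rw [mem_iUnion]
    refine ⟨n, ?_⟩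
    have h2 := shift hφ hK (sub_nonneg.2 hn) htw
    have h3 : w + t * Complex.I + (((n : ℝ) - t : ℝ) : ℂ) * Complex.I =
        w + (n : ℝ) * Complex.I := by
      push_cast
      ring
    rw [h3] at h2
    exact h2
  obtain ⟨N, hN⟩ := (isCompact_closedBall (h 0) R).elim_directed_cover _ hUo hcov
    hmono.directed_le
  refine ⟨N, fun n hn w hw => ?_⟩
  have h0 : (0 : ℂ) ∈ D := by
    unfold D
    simp
  rw [hK.2.2 n (Nat.cast_nonneg n) 0 h0, mem_ball, dist_eq_norm] at hw
  have h1 : w - (n : ℝ) * Complex.I ∈ closedBall (h 0) R := by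
    rw [mem_closedBall, dist_eq_norm]
    have e : w - (n : ℝ) * Complex.I - h 0 = w - (h 0 + (n : ℝ) * Complex.I) := by ring
    rw [e]
    exact hw.le
  have h2 := hmono hn (hN h1)
  change w - (n : ℝ) * Complex.I + (n : ℝ) * Complex.I ∈ h '' D at h2
  rwa [sub_add_cancel] at h2

end Pool.Agent.H824.TS
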